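import Pool.Agent.Y943.NG.Stm

/-! Job NG-DESC: descent from a normal subgroup. -/

set_option autoImplicit false

namespace Pool.Agent.Y804.NG

open IntermediateField

/-- the kernel of the conjugation action on a finite normal subgroup is open -/
theorem open_ker {Γ : Type} [Group Γ] [TopologicalSpace Γ] [IsTopologicalGroup Γ] [T2Space Γ]
    (N : Subgroup Γ) [N.Normal] [Finite N] :
    IsOpen ((MulAut.conjNormal (H := N) : Γ →* MulAut N).ker : Set Γ) := by
  have h : ((MulAut.conjNormal (H := N) : Γ →* MulAut N).ker : Set Γ) =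
      ⋂ n : N, (fun g : Γ => MulAut.conjNormal (H := N) g n) ⁻¹' {n} := by
    ext g
    simp only [SetLike.mem_coe, MonoidHom.mem_ker, Set.mem_iInter, Set.mem_preimage,
      Set.mem_singleton_iff]
    constructor
    · intro h n
      rw [h]
      rfl
    · intro h
      ext n
      rw [h n]
      rfl
  rw [h]
  refine isOpen_iInter_of_finite fun n => ?_
  refine (isOpen_discrete _).preimage ?_
  refine Continuous.subtype_mk (f := fun g : Γ => g * (n : Γ) * g⁻¹) ?_ _
  fun_prop

theorem desc : Pool.Agent.Y943.NG.t_DESC := by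
  intro K L G H _ _ _ _ _ _ _ _ ρ hρ F hF ⟨e⟩
  haveI hN : F.fixingSubgroup.Normal := (InfiniteGalois.normal_iff_isGalois F).2 hF
  let eN : F.fixingSubgroup ≃* H := (IntermediateField.fixingSubgroupEquiv F).trans e
  haveI : Finite F.fixingSubgroup := Finite.of_equiv H eN.symm.toEquiv
  let c : (L ≃ₐ[K] L) →* MulAut F.fixingSubgroup := MulAut.conjNormal
  let f : (L ≃ₐ[K] L) →* G := (ρ.comp (MulAut.congr eN).toMonoidHom).comp c
  have hfN : ∀ n : F.fixingSubgroup, f n = ρ (MulAut.conj (eN n)) := by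
    intro n
    change ρ (MulAut.congr eN (MulAut.conjNormal (n : L ≃ₐ[K] L))) = _
    congr 1
    rw [MulAut.conjNormal_val]
    ext h
    simp [MulAut.congr, MulAut.conj_apply]
  have hs : ∀ g : G, ∃ n : F.fixingSubgroup, f n = g := by
    intro g
    obtain ⟨h, hh⟩ := hρ g
    refine ⟨eN.symm h, ?_⟩
    rw [hfN, MulEquiv.apply_symm_apply]
    exact hh
  have hsurj : Function.Surjective f := fun g => by
    obtain ⟨n, hn⟩ := hs g
    exact ⟨n, hn⟩
  have hopen : IsOpen (f.ker : Set (L ≃ₐ[K] L)) := by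
    have h1 : IsOpen (c.ker : Set (L ≃ₐ[K] L)) := open_ker F.fixingSubgroup
    refine Subgroup.isOpen_mono (H₁ := c.ker) (H₂ := f.ker) ?_ h1
    intro g hg
    rw [MonoidHom.mem_ker] at hg ⊢
    change ρ (MulAut.congr eN (c g)) = 1
    rw [hg, map_one, map_one]
  have hclosed : IsClosed (f.ker : Set (L ≃ₐ[K] L)) := Subgroup.isClosed_of_isOpen f.ker hopen
  let C : ClosedSubgroup (L ≃ₐ[K] L) := ⟨f.ker, hclosed⟩
  have hfix : (fixedField f.ker).fixingSubgroup = f.ker :=
    InfiniteGalois.fixingSubgroup_fixedField C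
  haveI : C.Normal := MonoidHom.normal_ker f
  refine ⟨fixedField f.ker, ?_, ?_, ?_, ?_⟩
  · refine (InfiniteGalois.isOpen_iff_finite _).1 ?_
    rw [hfix]
    exact hopen
  · refine (InfiniteGalois.normal_iff_isGalois _).1 ?_
    rw [hfix]
    exact MonoidHom.normal_ker f
  · exact ⟨(InfiniteGalois.normalAutEquivQuotient C).symm.trans
      (QuotientGroup.quotientKerEquivOfSurjective f hsurj)⟩
  · rw [eq_bot_iff]
    intro x hx
    rw [IntermediateField.mem_inf] at hx
    rw [InfiniteGalois.mem_bot_iff_fixed]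
    intro g
    obtain ⟨n, hn⟩ := hs (f g)
    have hk : (n : L ≃ₐ[K] L)⁻¹ * g ∈ f.ker := by
      rw [MonoidHom.mem_ker, map_mul, map_inv, hn, inv_mul_cancel]
    have h1 : ((n : L ≃ₐ[K] L)⁻¹ * g) x = x := (mem_fixedField_iff _ _).1 hx.1 _ hk
    have h2 : (n : L ≃ₐ[K] L) x = x := (mem_fixingSubgroup_iff _ _).1 n.2 x hx.2
    have h3 : g = (n : L ≃ₐ[K] L) * ((n : L ≃ₐ[K] L)⁻¹ * g) := by group
    rw [h3, AlgEquiv.mul_apply, h1, h2]

end Pool.Agent.Y804.NG
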